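import Mathlib

set_option autoImplicit false

namespace Pool.Agent.Results.MP_e85eb4_nt.FourFactors

open Polynomial UniqueFactorizationMonoid

/-- The `n`-th iterate of a polynomial under composition. -/
noncomputable def iter (f : ℚ[X]) (n : ℕ) : ℚ[X] := (fun g => f.comp g)^[n] X

/-- The number of irreducible factors, counted with multiplicity. -/
noncomputable def Om (h : ℚ[X]) : ℕ := Multiset.card (normalizedFactors h)

lemma quad_deg (u v : ℚ) : (X ^ 2 + C u * X + C v : ℚ[X]).natDegree = 2 := by
  compute_degree!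

lemma quad_ne (u v : ℚ) : (X ^ 2 + C u * X + C v : ℚ[X]) ≠ 0 := by
  intro h
  have := quad_deg u v
  rw [h] at this
  simp at this

lemma quad_Om (u v : ℚ) : 1 ≤ Om (X ^ 2 + C u * X + C v) := by
  unfold Om
  rw [Nat.one_le_iff_ne_zero, Ne, Multiset.card_eq_zero, normalizedFactors_eq_zero_iff (quad_ne u v)]
  intro h
  have := natDegree_eq_zero_of_isUnit h
  rw [quad_deg] at this
  simp at this

lemma Om_mul (a b : ℚ[X]) (ha : a ≠ 0) (hb : b ≠ 0) : Om (a * b) = Om a + Om b := by
  unfold Om
  rw [normalizedFactors_mul ha hb, Multiset.card_add]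

theorem result : ∃ (f : ℚ[X]) (α : ℚ), f.natDegree = 2 ∧
    (Set.range (fun n : ℕ => (fun x => f.eval x)^[n] α)).Infinite ∧
    (∀ x : ℚ, f.eval x ≠ α) ∧
    ∃ n : ℕ, 1 ≤ n ∧ 4 ≤ Om (iter f n - C α) := by
  refine ⟨X ^ 2 - C (119 / 48), 13 / 4, by compute_degree!, ?_, ?_, 3, by norm_num, ?_⟩
  · apply Set.infinite_range_of_injective
    apply StrictMono.injective
    have key : ∀ n : ℕ, (13 / 4 : ℚ) ≤
        (fun x => (X ^ 2 - C (119 / 48) : ℚ[X]).eval x)^[n] (13 / 4) := by
      intro n
      induction n with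
      | zero => simp
      | succ n ih =>
        rw [Function.iterate_succ_apply']
        simp only [eval_sub, eval_pow, eval_X, eval_C] at ih ⊢
        nlinarith
    apply strictMono_nat_of_lt_succ
    intro n
    have := key n
    simp only [Function.iterate_succ_apply']
    simp only [eval_sub, eval_pow, eval_X, eval_C] at this ⊢
    nlinarith
  · intro x hx
    simp only [eval_sub, eval_pow, eval_X, eval_C] at hx
    have h33 : IsSquare (33 : ℚ) := ⟨12 * x / 5, by linear_combination (-144 / 25 : ℚ) * hx⟩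
    have : IsSquare (33 : ℕ) := by
      have := Rat.isSquare_natCast_iff (n := 33)
      exact this.1 (by simpa using h33)
    obtain ⟨r, hr⟩ := this
    have : r ≤ 6 := by nlinarith
    interval_cases r <;> omega
  · have e : iter (X ^ 2 - C (119 / 48)) 3 - C (13 / 4) =
        (X ^ 2 + C (-1 / 2) * X + C (-173 / 48)) * (X ^ 2 + C (1 / 2) * X + C (-173 / 48)) *
        ((X ^ 2 + C (-2) * X + C (37 / 48)) * (X ^ 2 + C 2 * X + C (37 / 48))) := by
      apply Polynomial.funext
      intro x
      simp [iter, Function.iterate_succ_apply']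
      ring
    rw [e, Om_mul _ _ (mul_ne_zero (quad_ne _ _) (quad_ne _ _))
      (mul_ne_zero (quad_ne _ _) (quad_ne _ _)), Om_mul _ _ (quad_ne _ _) (quad_ne _ _),
      Om_mul _ _ (quad_ne _ _) (quad_ne _ _)]
    have h1 := quad_Om (-1 / 2) (-173 / 48)
    have h2 := quad_Om (1 / 2) (-173 / 48)
    have h3 := quad_Om (-2) (37 / 48)
    have h4 := quad_Om 2 (37 / 48)
    omega

end Pool.Agent.Results.MP_e85eb4_nt.FourFactors
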